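import Pool.Agent.H8.TX.Targets
import Pool.Agent.H42.TD.HRL

/-!
# Zariski dense orbits on threefolds, row HRX: conjugate heights of algebraically dependent numbers
-/

set_option autoImplicit false

open MvPolynomial
open Pool.Agent.H12.ZD (pmap)
open Pool.Agent.H18.HIT Pool.Agent.H18.HX Pool.Agent.H18.VZ
open Pool.Agent.H8.ZA (HFam Const NA)
open Pool.Agent.H8.TD (lc dg Wsp Cop dh)
open Pool.Agent.H8.TX

namespace Pool.Agent.H81.TX

namespace HRX

open Pool.Agent.H42.TD.HRL

variable {K : IntermediateField ℚ Qb}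

lemma szn_one (v : AbsoluteValue Qb ℝ) (x : Qb) : szn v ![x] = max 1 (v x) := by
  unfold szn
  simp [max_comm]

lemma hn_one (F : HFam K) (x : Qb) : hn F ![x] = ∑ᶠ i, Real.log (mo F x i) := by
  unfold hn
  refine finsum_congr fun i => ?_
  rw [szn_one]
  rfl

lemma supp_const (F : HFam K) (C : F.ι → ℝ) (h : Const F C) :
    (Function.support fun i => Real.log (C i)).Finite := by
  refine h.finite.subset fun i hi h1 => hi ?_
  show Real.log (C i) = 0
  rw [h1, Real.log_one]

lemma supp_abv (F : HFam K) (a : Qb) (ha : a ≠ 0) :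
    (Function.support fun i => Real.log (F.abv i a)).Finite := by
  refine (F.finite a ha).subset fun i hi h1 => hi ?_
  show Real.log (F.abv i a) = 0
  rw [h1, Real.log_one]

/-- the inequality for one embedding -/
lemma one (F : HFam K) (G : Polynomial (Polynomial Qb)) (m : ℕ)
    (hdeg : ∀ j, (G.coeff j).natDegree ≤ m) : ∃ c : ℝ, ∀ (t φ : Qb) (J : ℕ),
    (G.coeff J).eval t ≠ 0 → (∀ j, J < j → (G.coeff j).eval t = 0) →
    (G.map (Polynomial.evalRingHom t)).eval φ = 0 →
    hn F ![φ] + ∑ᶠ i, Real.log (F.abv i ((G.coeff J).eval t)) ≤ m * hn F ![t] + c := by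
  classical
  set N := G.natDegree with hN
  let B : F.ι → ℝ := fun i => ∏ j ∈ Finset.range (N + 1),
    (fun j i => ∏ u ∈ Finset.range (m + 1), mo F ((G.coeff j).coeff u) i) j i
  have hB1 : ∀ j, Const F (fun i => ∏ u ∈ Finset.range (m + 1), mo F ((G.coeff j).coeff u) i) :=
    fun j => prod_const F _ (fun u => mo F ((G.coeff j).coeff u)) fun u _ => mo_const F _
  have hB : Const F B :=
    prod_const F _ (fun j i => ∏ u ∈ Finset.range (m + 1), mo F ((G.coeff j).coeff u) i)
      fun j _ => hB1 j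
  have hBc : ∀ i j u, j < N + 1 → u < m + 1 → F.abv i ((G.coeff j).coeff u) ≤ B i := by
    intro i j u hj hu
    calc F.abv i ((G.coeff j).coeff u) ≤ mo F ((G.coeff j).coeff u) i := le_max_right _ _
      _ ≤ ∏ u ∈ Finset.range (m + 1), mo F ((G.coeff j).coeff u) i :=
        le_prod F _ (fun u => mo F ((G.coeff j).coeff u)) (fun u _ => mo_const F _) u
          (Finset.mem_range.2 hu) i
      _ ≤ B i := le_prod F _ (fun j i => ∏ u ∈ Finset.range (m + 1),
          mo F ((G.coeff j).coeff u) i) (fun j _ => hB1 j) j (Finset.mem_range.2 hj) i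
  let κ1 : F.ι → ℝ := ac F ((m + 1 : ℕ) : ℝ)
  let κ2 : F.ι → ℝ := ac F ((N + 1 : ℕ) : ℝ)
  have hκ1 : Const F κ1 := ac_const F _ (by push_cast; linarith [Nat.cast_nonneg (α := ℝ) m])
  have hκ2 : Const F κ2 := ac_const F _ (by push_cast; linarith [Nat.cast_nonneg (α := ℝ) N])
  let C : F.ι → ℝ := fun i => κ2 i * (κ1 i * B i)
  have hC : Const F C := hκ2.mul (hκ1.mul hB)
  refine ⟨∑ᶠ i, Real.log (C i), fun t φ J hJ0 hJg hφ => ?_⟩
  -- the coefficients
  let c : ℕ → Qb := fun j => (G.coeff j).eval t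
  have hcb : ∀ i j, j < N + 1 → F.abv i (c j) ≤ κ1 i * (B i * mo F t i ^ m) := by
    intro i j hj
    have h1 : c j = ∑ u ∈ Finset.range (m + 1), (G.coeff j).coeff u * t ^ u := by
      show (G.coeff j).eval t = _
      exact Polynomial.eval_eq_sum_range' (Nat.lt_succ_of_le (hdeg j)) t
    rw [h1]
    have hs : 1 ≤ mo F t i := le_max_left _ _
    refine sum_le _ _ _ _ _ (mul_nonneg (hB.pos i).le (pow_nonneg (by linarith) _))
      (ac_or F _ _ i le_rfl) fun u hu => ?_
    rw [map_mul, map_pow]
    have h2 : F.abv i t ≤ mo F t i := le_max_right _ _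
    have h3 : F.abv i t ^ u ≤ mo F t i ^ m :=
      (pow_le_pow_left₀ ((F.abv i).nonneg _) h2 u).trans
        (pow_le_pow_right₀ hs (by omega))
    exact mul_le_mul (hBc i j u hj hu) h3 (pow_nonneg ((F.abv i).nonneg _) _) (hB.pos i).le
  have hJN : J ≤ N := by
    apply Polynomial.le_natDegree_of_ne_zero
    intro h
    rw [h, Polynomial.eval_zero] at hJ0
    exact hJ0 rfl
  have hrel : c J * φ ^ J = - ∑ j ∈ Finset.range J, c j * φ ^ j := by
    rw [Polynomial.eval_map, Polynomial.eval₂_eq_sum_range] at hφ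
    have h1 : ∑ j ∈ Finset.range (J + 1), c j * φ ^ j = 0 := by
      rw [← hφ]
      apply Finset.sum_subset (Finset.range_mono (by omega))
      intro j hj hj'
      rw [Finset.mem_range] at hj hj'
      have h2 : c j = 0 := hJg j (by omega)
      show c j * φ ^ j = 0
      rw [h2, zero_mul]
    rw [Finset.sum_range_succ] at h1
    linear_combination h1
  have hJ1 : 1 ≤ J := by
    by_contra h
    have h1 : J = 0 := by omega
    rw [h1] at hrel
    rw [h1] at hJ0
    simp at hrel
    exact hJ0 hrel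
  have hJ0' : c J ≠ 0 := hJ0
  -- the local inequality
  have key : ∀ i, mo F φ i * F.abv i (c J) ≤ C i * mo F t i ^ m := by
    intro i
    have hcp : 0 < F.abv i (c J) := (F.abv i).pos hJ0'
    have hb := hcb i J (by omega)
    have hst : 0 < mo F t i := lt_of_lt_of_le one_pos (le_max_left _ _)
    have hQ : 0 ≤ κ1 i * (B i * mo F t i ^ m) :=
      mul_nonneg (hκ1.pos i).le (mul_nonneg (hB.pos i).le (pow_nonneg hst.le _))
    have hQ2 : C i * mo F t i ^ m = κ2 i * (κ1 i * (B i * mo F t i ^ m)) := by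
      show κ2 i * (κ1 i * B i) * _ = _
      ring
    rw [hQ2]
    by_cases hle : F.abv i φ ≤ 1
    · have h1 : mo F φ i ≤ 1 := max_le le_rfl hle
      calc mo F φ i * F.abv i (c J) ≤ 1 * F.abv i (c J) :=
            mul_le_mul_of_nonneg_right h1 hcp.le
        _ = F.abv i (c J) := one_mul _
        _ ≤ κ1 i * (B i * mo F t i ^ m) := hb
        _ ≤ κ2 i * (κ1 i * (B i * mo F t i ^ m)) :=
            le_mul_of_one_le_left hQ (hκ2.one_le i)
    · have hgt : 1 < F.abv i φ := lt_of_not_ge hle
      have h1 : mo F φ i ≤ F.abv i φ := max_le hgt.le le_rfl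
      have h2 : F.abv i (c J) * F.abv i φ ^ J ≤
          κ2 i * (κ1 i * (B i * mo F t i ^ m) * F.abv i φ ^ (J - 1)) := by
        rw [← map_pow, ← map_mul, hrel, (F.abv i).map_neg]
        refine sum_le _ _ _ _ _ (mul_nonneg hQ (pow_nonneg (by linarith) _))
          (ac_or F _ _ i (by exact_mod_cast (by omega : J ≤ N + 1))) fun j hj => ?_
        rw [map_mul, map_pow]
        refine mul_le_mul (hcb i j (by omega)) (pow_le_pow_right₀ hgt.le (by omega))
          (pow_nonneg (by linarith) _) hQ
      have h3 : F.abv i φ ^ J = F.abv i φ * F.abv i φ ^ (J - 1) := by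
        rw [← pow_succ']
        congr 1
        omega
      have hpp : 0 < F.abv i φ ^ (J - 1) := pow_pos (by linarith) _
      have h4 : F.abv i φ * F.abv i (c J) ≤ κ2 i * (κ1 i * (B i * mo F t i ^ m)) := by
        rw [h3] at h2
        have h5 : (F.abv i φ * F.abv i (c J)) * F.abv i φ ^ (J - 1) ≤
            (κ2 i * (κ1 i * (B i * mo F t i ^ m))) * F.abv i φ ^ (J - 1) := by
          linarith
        exact le_of_mul_le_mul_right h5 hpp
      exact (mul_le_mul_of_nonneg_right h1 hcp.le).trans h4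
  -- the end
  have hlog : ∀ i, Real.log (mo F φ i) + Real.log (F.abv i (c J)) ≤
      Real.log (C i) + m * Real.log (mo F t i) := by
    intro i
    have hcp : 0 < F.abv i (c J) := (F.abv i).pos hJ0'
    have hp1 := (mo_const F φ).pos i
    have hp2 := (mo_const F t).pos i
    have h1 : Real.log (mo F φ i * F.abv i (c J)) ≤ Real.log (C i * mo F t i ^ m) :=
      Real.log_le_log (mul_pos hp1 hcp) (key i)
    rw [Real.log_mul hp1.ne' hcp.ne', Real.log_mul (hC.pos i).ne'
      (pow_pos hp2 _).ne', Real.log_pow] at h1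
    exact h1
  have s1 := supp_const F _ (mo_const F φ)
  have s2 := supp_const F _ (mo_const F t)
  have s3 := supp_const F _ hC
  have s4 := supp_abv F (c J) hJ0'
  have s5 : (Function.support fun i => (m : ℝ) * Real.log (mo F t i)).Finite :=
    s2.subset fun i hi h => hi (by
      show (m : ℝ) * Real.log (mo F t i) = 0
      rw [show Real.log (mo F t i) = 0 from h, mul_zero])
  rw [hn_one, hn_one, mul_finsum]
  rw [← finsum_add_distrib s1 s4, ← finsum_add_distrib s5 s3]
  refine finsum_le_finsum' ?_ ?_ fun i => ?_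
  · exact (s1.union s4).subset (Function.support_add _ _)
  · exact (s5.union s3).subset (Function.support_add _ _)
  · have := hlog i
    show Real.log (mo F φ i) + Real.log (F.abv i (c J)) ≤
      m * Real.log (mo F t i) + Real.log (C i)
    linarith

lemma eval_conj (σ : Qb ≃+* Qb) (p : Polynomial Qb) (t : Qb) :
    (p.map (σ : Qb →+* Qb)).eval (σ t) = σ (p.eval t) := by
  rw [Polynomial.eval_map]
  exact Polynomial.eval₂_hom (σ : Qb →+* Qb) t

end HRX

open HRX

theorem pf_HRX : T_HRX := by
  classical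
  intro K₀ K₁ F r m σ G hC hK hdeg hne
  let Gs : Fin r → Polynomial (Polynomial Qb) := fun s =>
    G.map (Polynomial.mapRingHom (σ s : Qb →+* Qb))
  have hco : ∀ s j, (Gs s).coeff j = (G.coeff j).map (σ s : Qb →+* Qb) := by
    intro s j
    show (G.map (Polynomial.mapRingHom (σ s : Qb →+* Qb))).coeff j = _
    rw [Polynomial.coeff_map]
    rfl
  have hd : ∀ s j, ((Gs s).coeff j).natDegree ≤ m := by
    intro s j
    rw [hco]
    exact Polynomial.natDegree_map_le.trans (hdeg j)
  choose c hc using fun s => HRX.one F (Gs s) m (hd s)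
  refine ⟨∑ s, c s, fun t φ ht hφ => ?_⟩
  obtain ⟨j0, hj0⟩ := hne t
  have hle : ∀ j, (G.coeff j).eval t ≠ 0 → j ≤ G.natDegree := by
    intro j hj
    apply Polynomial.le_natDegree_of_ne_zero
    intro h
    rw [h, Polynomial.eval_zero] at hj
    exact hj rfl
  set J := Nat.findGreatest (fun j => (G.coeff j).eval t ≠ 0) G.natDegree with hJ
  have hJ0 : (G.coeff J).eval t ≠ 0 :=
    Nat.findGreatest_spec (P := fun j => (G.coeff j).eval t ≠ 0) (hle j0 hj0) hj0
  have hJg : ∀ j, J < j → (G.coeff j).eval t = 0 := by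
    intro j h1
    by_contra h2
    exact Nat.findGreatest_is_greatest (P := fun j => (G.coeff j).eval t ≠ 0) h1 (hle j h2) h2
  have hev : ∀ s j, ((Gs s).coeff j).eval (σ s t) = σ s ((G.coeff j).eval t) := by
    intro s j
    rw [hco, eval_conj]
  have hφs : ∀ s, ((Gs s).map (Polynomial.evalRingHom (σ s t))).eval (σ s φ) = 0 := by
    intro s
    have h1 : (Gs s).map (Polynomial.evalRingHom (σ s t)) =
        (G.map (Polynomial.evalRingHom t)).map (σ s : Qb →+* Qb) := by
      ext j
      rw [Polynomial.coeff_map, Polynomial.coeff_map, Polynomial.coeff_map, Polynomial.coeff_map]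
      exact eval_conj (σ s) (G.coeff j) t
    rw [h1, eval_conj, hφ, map_zero]
  have hJs : ∀ s, ((Gs s).coeff J).eval (σ s t) ≠ 0 := by
    intro s
    rw [hev]
    exact fun h => hJ0 ((map_eq_zero_iff _ (σ s).injective).1 h)
  have hsum : ∀ s, hn F ![σ s φ] +
      ∑ᶠ i, Real.log (F.abv i (σ s ((G.coeff J).eval t))) ≤ m * hn F ![σ s t] + c s := by
    intro s
    have h1 := hc s (σ s t) (σ s φ) J (hJs s)
      (fun j hj => by rw [hev, hJg j hj, map_zero]) (hφs s)
    rw [hev] at h1
    exact h1
  have hz : ∑ s, ∑ᶠ i, Real.log (F.abv i (σ s ((G.coeff J).eval t))) = 0 := by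
    have hcK : (G.coeff J).eval t ∈ K₁ := by
      rw [Polynomial.eval_eq_sum_range]
      exact sum_mem fun u _ => mul_mem (hK J u) (pow_mem ht u)
    have hn1 := hC.nrm _ hcK
    have hne0 : ∏ s, σ s ((G.coeff J).eval t) ≠ 0 := by
      rw [Finset.prod_ne_zero_iff]
      intro s _ h
      exact hJ0 ((map_eq_zero_iff _ (σ s).injective).1 h)
    have hp := F.prod _ hn1 hne0
    rw [← finsum_sum_comm]
    · rw [← hp]
      refine finsum_congr fun i => ?_
      rw [map_prod, Real.log_prod]
      intro s _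
      exact ((F.abv i).pos fun h => hJ0 ((map_eq_zero_iff _ (σ s).injective).1 h)).ne'
    · intro s _
      exact supp_abv F _ fun h => hJ0 ((map_eq_zero_iff _ (σ s).injective).1 h)
  have htot := Finset.sum_le_sum fun s (_ : s ∈ Finset.univ) => hsum s
  rw [Finset.sum_add_distrib, Finset.sum_add_distrib, hz, ← Finset.mul_sum] at htot
  linarith

end Pool.Agent.H81.TX
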